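import Pool.Agent.Helper54.T5g.MSplit
import Pool.Agent.Helper48.T5g.EvCode
import Pool.Agent.Helper48.T5g.EvCrt
import Pool.Agent.Helper98.T5.SplitFin

/-!
# T5g: multiplicity across a split, the instance

Labels: `x` (joint vector of the upper state), `y` (vector of the level which has just been split
off), `x'` (joint vector of the lower state).  All outer keys at once.
-/

set_option autoImplicit false

namespace Pool.Agent.Helper98.T5g

open Finset Pool.Agent.Helper27.T4 Pool.Agent.Helper84.T5g Pool.Agent.Helper37.T5g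
  Pool.Agent.Helper30.T5g Pool.Agent.Helper27.T5b Pool.Agent.Helper54.T5g
open Pool.Agent.Helper5.ET hiding Key keysOf Mk
open Pool.Agent.Helper3.T5 Pool.Agent.Helper39.T5 Pool.Agent.Helper98.T5
open Pool.Agent.Helper22.HW Pool.Agent.Helper22.SL Pool.Agent.Helper57.T5

/-- the main level of a pair across a split, for all outer keys -/
noncomputable def M0 (m : Sq) (k l' l : ℕ) : MP JF Key :=
  { MSp m k l' l 0 0 with
    X := XJ m k l
    X' := (XJ m k l').image lowJ }

variable {m : Sq} {k l' l : ℕ}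

theorem M0_ok (h : SplitDig m k l' l) : (M0 m k l' l).Ok (Mk m k) := by
  have hRr : ∀ x, l' ≤ x → x ≤ ef m k l 0 →
      aJ m k (sL m k l) x (Sum.inl (fam (era (mL m k l) + 2))) =
        aJ m k (sL m k l) l' (Sum.inl (fam (era (mL m k l) + 2))) :=
    fun x h1 h2 => h.stat x h1 h2 _ (fam_two_ne _)
  have hO := fun o o' => MSp_ok (o := o) (o' := o') h
  have h0 := hO 0 0
  refine
    { prime := h0.prime
      odd := h0.odd
      inj := h0.inj
      adm := fun x hx i => ?_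
      adm' := fun x hx i => ?_
      cc := h0.cc
      ce := h0.ce
      ce' := h0.ce'
      ee := h0.ee
      rank := h0.rank
      dep := h0.dep
      dep' := h0.dep'
      sep := fun x _ y _ hxy => ?_
      sep' := fun x _ y _ hxy => ?_
      new := h0.new
      mix := h0.mix
      size := fun x _ => MSp_size (o := 0) (o' := 0) h x
      size' := fun x _ => MSp_size' (o := 0) (o' := 0) h x
      PR := h0.PR
      PR' := h0.PR'
      RP := h0.RP
      statR := h0.statR }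
  · exact (hO (okey m k l 0 x) 0).adm x (mem_filter.2 ⟨hx, rfl⟩) i
  · change x ∈ (XJ m k l').image lowJ at hx
    rw [mem_image] at hx
    obtain ⟨z, hz, rfl⟩ := hx
    exact (hO 0 (okey m k l' 0 z)).adm' (lowJ z)
      (mem_image_of_mem _ (mem_filter.2 ⟨hz, rfl⟩)) i
  · have h1 : maskJ (preJ m k l (Sum.inl (fam (era (mL m k l) + 2)))) x =
        maskJ (preJ m k l (Sum.inl (fam (era (mL m k l) + 2)))) y := (Key.J.inj hxy).2.2
    exact maskJ_inj h1
  · have h1 : maskJ (preJ m k l' (Sum.inl (fam (era (mL m k l) + 2)))) x =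
        maskJ (preJ m k l' (Sum.inl (fam (era (mL m k l) + 2)))) y := (Key.J.inj hxy).2.2
    exact maskJ_inj h1

theorem M0_st (h : SplitDig m k l' l) : (M0 m k l' l).St :=
  ⟨(MSp_st (o := 0) (o' := 0) h).stat, (MSp_st (o := 0) (o' := 0) h).grow⟩

/-- the pair of states across a split -/
noncomputable def SSp (m : Sq) (k l' l : ℕ) : SP JF Key where
  M := M0 m k l' l
  pq := pz k (sL m k l - 0)
  z := zf m k (sL m k l - 0)
  F2 := FF m k l 1 * LL (QQ m k (sL m k l)) 0
  key2 := fun x f y => Key.S l 0 f (okey m k l 0 x) (mask (univ.filter (fun g => g < f)) y)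
  key3 := fun f => Key.J l' (Sum.inr f.succ) 0
  Y := Pool.Agent.Helper39.T5.TT (pz k (sL m k l - 0)) (zf m k (sL m k l - 0))

theorem pJ_ne_pz (k s : ℕ) (i : JF) (f : Fin 3) : pJ k s i ≠ pz k s f := by
  have key : ∀ a : ℕ, Nat.Coprime a (pz k s f) → a ≠ 1 → a ≠ pz k s f := by
    intro a ha h1 hc
    rw [← hc, Nat.coprime_self] at ha
    exact h1 ha
  rcases i with g | i
  · exact key _ (Pool.Agent.Helper48.T5g.cop_pr_pz k s g f) (pr_prime g).ne_one
  · revert i
    refine Fin.cases ?_ (fun g => ?_)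
    · exact key _ (Pool.Agent.Helper48.T5g.cop_buffer_pz k s f)
        (by rw [pJ_zero]; norm_num)
    · refine key _ (Pool.Agent.Helper48.T5g.cop_pz_pz ?_ g f)
        (Pool.Agent.Helper84.T5g.pz_prime k (s + 1) g).ne_one
      intro h
      have h1 := Nat.sub_mod_eq_zero_of_mod_eq h
      rw [Nat.add_sub_cancel_left] at h1
      have h2 : 1 % (k + 3) = 1 := Nat.mod_eq_of_lt (by omega)
      omega

theorem pz_ne_two (k s : ℕ) (f : Fin 3) : pz k s f ≠ 2 := by
  have h := Pool.Agent.Helper30.T5.million_lt_sp (3 * (s % (k + 3)) + f)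
  unfold pz
  omega

theorem SSp_Q : (SSp m k l' l).Q = QQ m k (sL m k l) 0 := rfl

/-- **the requirements**; the last two hypotheses are size conditions -/
theorem SSp_ok (hm : m.Ok) (h : SplitDig m k l' l) (hr : 0 < rL m k l)
    (hQk : QQ m k (sL m k l) 0 ≤ (M0 m k l' l).q)
    (hAA : FF m k l 0 ≤ Jn m k (sL m k l) (ef m k l' 0) * QQ m k (sL m k l) 0) :
    (SSp m k l' l).Ok (Mk m k) where
  m := M0_ok h
  prime := Pool.Agent.Helper84.T5g.pz_prime k _
  odd := fun i => pz_ne_two k _ i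
  inj := Pool.Agent.Helper84.T5g.pz_inj k _
  s := fun x => Pool.Agent.Helper48.T5g.Ss_ok hm hr (okey m k l 0 x)
  sinj := fun x x' i i' y y' he => by
    have h1 : i = i' := (Key.S.inj he).2.2.1
    have h2 : mask (univ.filter (fun g => g < i)) y = mask (univ.filter (fun g => g < i')) y' :=
      (Key.S.inj he).2.2.2.2
    subst h1
    exact ((Pool.Agent.Helper48.T5g.Ss_ok hm hr (0 : JF → ℕ)).inj i i y y'
      (congrArg (Key.S l 0 i 0) h2))
  adm := fun _ hy f => mem_T1.1 ((Fintype.mem_piFinset.1 hy) f)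
  ne := fun i j => pJ_ne_pz k _ i j
  dis := fun x0 i y j x => by
    constructor
    · intro hc
      exact absurd hc (by
        change Key.S l 0 i _ _ ≠ Key.J l j _
        simp)
    · intro hc
      rcases j with f | j
      · exact absurd hc (by
          change Key.S l 0 i _ _ ≠ Key.J l' (Sum.inl f) _
          simp)
      · exact absurd hc (by
          change Key.S l 0 i _ _ ≠ Key.J l' (Sum.inr 0) _
          simp)
  dis3 := fun f x i y => by
    refine ⟨?_, ?_, ?_⟩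
    · change Key.J l' (Sum.inr f.succ) _ ≠ Key.S l 0 i _ _
      simp
    · change Key.J l' (Sum.inr f.succ) _ ≠ Key.J l (Sum.inl _) _
      simp
    · change Key.J l' (Sum.inr f.succ) _ ≠ Key.J l' (Sum.inl _) _
      simp
  NF := by
    change Jn m k (sL m k l) (ef m k l' 0) ∣ FF m k l 1 * LL (QQ m k (sL m k l)) 0
    have h1 : LL (QQ m k (sL m k l)) 0 = 1 := by simp [LL]
    rw [h1, mul_one]
    refine Pool.Agent.Helper48.T5g.Jn_dvd m k _ ?_
    unfold ef
    have h2 : sL m k l' - 0 = sL m k l - 1 := by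
      have := h.ss
      omega
    rw [h2]
    exact ez_mono m _ h.ll.le
  Qk := hQk
  AA := hAA

/-- the code of the lower state modulo the joint families of the upper state -/
theorem c0_low (h : SplitDig m k l' l) (w : Key → ℕ) (x' : JF → ℕ) (i : JF) :
    ((c0 m k l' w x' : ℕ) : ZMod (pJ k (sL m k l) i ^ aJ m k (sL m k l) (ef m k l' 0) i)) =
      Lg (pJ k (sL m k l) i) (aJ m k (sL m k l) (ef m k l' 0) i) (lowJ x' i) +
        ((w (keyL m k l' i (lowJ x')) : ℕ) :
          ZMod (pJ k (sL m k l) i ^ aJ m k (sL m k l) (ef m k l' 0) i)) := by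
  rcases i with f | i
  · have h1 := Pool.Agent.Helper48.T5g.c0_cast m k l' w x' (Sum.inl f)
    have h2 : maskJ (preJ m k l' (Sum.inl f)) (lowJ x') = maskJ (preJ m k l' (Sum.inl f)) x' := by
      apply maskJ_congr
      intro j hj
      obtain ⟨g, _, rfl⟩ := mem_preJ_inl hj
      rfl
    rw [pJ_inl, aJ_inl] at h1
    have h3 : keyL m k l' (Sum.inl f) (lowJ x') =
        Key.J l' (Sum.inl f) (maskJ (preJ m k l' (Sum.inl f)) x') := by
      change Key.J l' (Sum.inl f) (maskJ (preJ m k l' (Sum.inl f)) (lowJ x')) = _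
      rw [h2]
    rw [pJ_inl, aJ_inl, lowJ_inl, h3]
    exact h1
  · revert i
    refine Fin.cases ?_ (fun f => ?_)
    · have h1 := Pool.Agent.Helper48.T5g.c0_cast m k l' w x' (Sum.inr 0)
      rw [pJ_zero, aJ_zero] at h1
      rw [pJ_zero, aJ_zero, lowJ_zero]
      have h2 : maskJ (preJ m k l' (Sum.inr 0)) x' = 0 := by
        funext j
        simp [maskJ, preJ]
      rw [h2] at h1
      exact h1
    · have h1 : aJ m k (sL m k l) (ef m k l' 0) (Sum.inr f.succ) = 0 :=
        h.nb0 _ h.le' h.ee f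
      have hs : Subsingleton (ZMod (pJ k (sL m k l) (Sum.inr f.succ) ^
          aJ m k (sL m k l) (ef m k l' 0) (Sum.inr f.succ))) := by
        rw [h1, pow_zero]
        exact (inferInstance : Subsingleton (ZMod 1))
      exact Subsingleton.elim _ _

/-- the code of the lower state modulo the primes of the split level -/
theorem c0_new (h : SplitDig m k l' l) (w : Key → ℕ) (x' : JF → ℕ) (f : Fin 3) :
    ((c0 m k l' w x' : ℕ) : ZMod (pz k (sL m k l - 0) f ^ zf m k (sL m k l - 0) f)) =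
      Lg (pz k (sL m k l - 0) f) (zf m k (sL m k l - 0) f) (x' (Sum.inr f.succ)) +
        ((w (Key.J l' (Sum.inr f.succ) 0) : ℕ) :
          ZMod (pz k (sL m k l - 0) f ^ zf m k (sL m k l - 0) f)) := by
  have h1 := Pool.Agent.Helper48.T5g.c0_cast m k l' w x' (Sum.inr f.succ)
  have h2 : maskJ (preJ m k l' (Sum.inr f.succ)) x' = 0 := by
    funext j
    simp [maskJ, preJ]
  rw [h2] at h1
  have h3 : pJ k (sL m k l') (Sum.inr f.succ) = pz k (sL m k l - 0) f := by
    rw [Nat.sub_zero, h.ss]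
    rfl
  have h4 : aJ m k (sL m k l') (ef m k l' 0) (Sum.inr f.succ) = zf m k (sL m k l - 0) f := by
    rw [Nat.sub_zero]
    exact h.full _ h.le' h.ee f
  exact Pool.Agent.Helper48.T5g.cast_congr2 h3 h4 h1

/-- the range of the code of the lower state -/
theorem FF_low (h : SplitDig m k l' l) :
    FF m k l' 0 = Jn m k (sL m k l) (ef m k l' 0) * QQ m k (sL m k l) 0 := by
  have h1 : Pool.Agent.Helper48.T5g.TJ m k (sL m k l' + 1) (ef m k l' 0) =
      QT m k (sL m k l' + 1) :=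
    Pool.Agent.Helper48.T5g.TJ_full (fun f => by
      have h2 : aJ m k (sL m k l') (ef m k l' 0) (Sum.inr f.succ) = zf m k (sL m k l) f :=
        h.full _ h.le' h.ee f
      rw [h.ss] at h2
      exact h2)
  have h2 : Pool.Agent.Helper48.T5g.TJ m k (sL m k l + 1) (ef m k l' 0) = 1 :=
    Pool.Agent.Helper48.T5g.TJ_zero (fun f => h.nb0 _ h.le' h.ee f)
  change Jn m k (sL m k l') (ef m k l' 0) = _ * QT m k (sL m k l - 0)
  rw [Pool.Agent.Helper48.T5g.Jn_eq, Pool.Agent.Helper48.T5g.Jn_eq, h1, h2, mul_one,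
    Nat.sub_zero, h.ss]

/-- the newborn triple of the lower state -/
def nbv (x : JF → ℕ) : Fin 3 → ℕ := fun f => x (Sum.inr f.succ)

theorem lowJ_nbv_inj {x z : JF → ℕ} (h1 : lowJ x = lowJ z) (h2 : nbv x = nbv z) : x = z := by
  funext i
  rcases i with f | i
  · exact congrFun h1 (Sum.inl f)
  · revert i
    refine Fin.cases ?_ (fun f => ?_)
    · exact congrFun h1 (Sum.inr 0)
    · exact congrFun h2 f

/-- the label of `x`, `x'`, `y` -/
def lab (x x' : JF → ℕ) (y : Fin 3 → ℕ) : Lb JF := ((x, lowJ x'), (y, nbv x'))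

/-- **the codes of the two states** -/
theorem gd_of (hm : m.Ok) (h : SplitDig m k l' l) (hr : 0 < rL m k l)
    (hz : ∀ f, zf m k (sL m k l) f ≠ 0) (w : Key → ℕ) {x x' : JF → ℕ} {y : Fin 3 → ℕ}
    (hx : x ∈ XJ m k l) (hx' : x' ∈ XJ m k l') (hy : y ∈ Ys m k l 0) :
    Gd (SSp m k l' l) w univ univ
      (c0 m k l w x + cs m k l 0 w (okey m k l 0 x) y + c0 m k l' w x')
      (lab x x' y, (c0 m k l w x, cs m k l 0 w (okey m k l 0 x) y, c0 m k l' w x')) where
  x := hx
  x' := mem_image_of_mem _ hx'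
  y := Ys_subset m k l 0 hy
  y' := by
    change nbv x' ∈ Pool.Agent.Helper39.T5.TT (pz k (sL m k l - 0)) (zf m k (sL m k l - 0))
    unfold Pool.Agent.Helper39.T5.TT
    rw [Fintype.mem_piFinset]
    intro f
    rw [mem_T1, Nat.sub_zero]
    have h1 := mem_XJ.1 hx' (Sum.inr f.succ)
    have h2 : aJ m k (sL m k l') l' (Sum.inr f.succ) = zf m k (sL m k l) f :=
      h.full _ le_rfl (h.ll.le.trans h.le) f
    have h3 : pJ k (sL m k l') (Sum.inr f.succ) = pz k (sL m k l) f := by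
      rw [h.ss]
      rfl
    rw [h2, h3] at h1
    rcases h1 with ⟨h4, _⟩ | ⟨_, h4, h5, h6⟩
    · exact absurd h4 (hz f)
    · exact ⟨h4, h5, h6⟩
  lt := Pool.Agent.Helper48.T5g.c0_lt m k l w x
  lt2 := by
    have h1 := Pool.Agent.Helper48.T5g.cs_lt m k l 0 w (okey m k l 0 x) y
    rw [LL_succ, ← mul_assoc] at h1
    exact h1
  lt' := by
    have h1 := Pool.Agent.Helper48.T5g.c0_lt m k l' w x'
    rw [FF_low h] at h1
    exact h1
  dvd := Pool.Agent.Helper48.T5g.cs_dvd m k l 0 w (okey m k l 0 x) y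
  res := fun i _ => Pool.Agent.Helper48.T5g.c0_cast m k l w x i
  res' := fun i _ => c0_low h w x' i
  res2 := fun j _ => Pool.Agent.Helper48.T5g.cs_cast hm hr w (okey m k l 0 x) y j
  resq := fun j => c0_new h w x' j
  sum := rfl

theorem maskJ_low (f : Fin 3) (x' : JF → ℕ) :
    maskJ (preJ m k l' (Sum.inl f)) (lowJ x') = maskJ (preJ m k l' (Sum.inl f)) x' := by
  apply maskJ_congr
  intro j hj
  obtain ⟨g, _, rfl⟩ := mem_preJ_inl hj
  rfl

theorem c0_congr_v2 {w w' : Key → ℕ} {x : JF → ℕ}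
    (h : ∀ i, w (Key.J l i (maskJ (preJ m k l i) x)) = w' (Key.J l i (maskJ (preJ m k l i) x))) :
    c0 m k l w x = c0 m k l w' x := by
  unfold c0
  congr 1
  funext i
  unfold cmp0
  rw [h i]

theorem cs_congr_v2 {w w' : Key → ℕ} {t : ℕ} {o : JF → ℕ} {y : Fin 3 → ℕ}
    (h : ∀ f, w ((Ss m k l t o).key f y) = w' ((Ss m k l t o).key f y)) :
    cs m k l t w o y = cs m k l t w' o y := by
  unfold cs Side.cd Pool.Agent.Helper22.HW.lc
  congr 1
  funext f
  unfold Side.rho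
  rw [h f]

/-- **multiplicity of `c0 x + cs y + c0' x'` across a split** -/
theorem mult_inst (hm : m.Ok) (h : SplitDig m k l' l) (hr : 0 < rL m k l)
    (hz : ∀ f, zf m k (sL m k l) f ≠ 0)
    (hQk : QQ m k (sL m k l) 0 ≤ (M0 m k l' l).q)
    (hAA : FF m k l 0 ≤ FF m k l' 0) {K : Finset Key}
    (hK : ∀ x ∈ XJ m k l, ∀ i, Key.J l i (maskJ (preJ m k l i) x) ∈ K)
    (hK' : ∀ x ∈ XJ m k l', ∀ i, Key.J l' i (maskJ (preJ m k l' i) x) ∈ K)
    (hK2 : ∀ x ∈ XJ m k l, ∀ y ∈ Ys m k l 0, ∀ f,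
      Key.S l 0 f (okey m k l 0 x) (mask (univ.filter (fun g => g < f)) y) ∈ K)
    {ρ1 ρ2 : ℝ} (hρ1 : 0 ≤ ρ1) (hρ2 : 0 ≤ ρ2)
    (h1 : (M0 m k l' l).C * (M0 m k l' l).Lam *
      (Real.sqrt (pz k (sL m k l) 2 ^ zf m k (sL m k l) 2 : ℕ) /
        Real.sqrt (QQ m k (sL m k l) 0 : ℕ)) *
      (4 * (Jn m k (sL m k l) (ef m k l' 0) : ℝ) / FF m k l 1 + 2) ≤ ρ1)
    (h2 : (M0 m k l' l).C * (M0 m k l' l).Lam *
      (4 * (Jn m k (sL m k l) (ef m k l' 0) : ℝ) / FF m k l 1 +
        2 / (pz k (sL m k l) 2 ^ zf m k (sL m k l) 2 : ℕ)) ≤ ρ2)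
    (m1 m2 : ℕ) :
    PrG (Mk m k) K (fun w => ∃ s, 2 * ((M0 m k l' l).C * ∏ f, (2 * (pz k (sL m k l) f - 1))) *
        (m1 + 1) * m2 <
      (((XJ m k l ×ˢ XJ m k l') ×ˢ Ys m k l 0).filter (fun z =>
        c0 m k l w z.1.1 + cs m k l 0 w (okey m k l 0 z.1.1) z.2 + c0 m k l' w z.1.2 = s)).card)
      ((FF m k l 0 + FF m k l 1 * QQ m k (sL m k l) 0 + FF m k l' 0 : ℕ) *
        ((pz k (sL m k l) 0 ^ zf m k (sL m k l) 0 * pz k (sL m k l) 1 ^ zf m k (sL m k l) 1 : ℕ) *
          ((((M0 m k l' l).q : ℝ) * (M0 m k l' l).q) * ρ1 ^ (m1 + 1)) +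
        (((M0 m k l' l).q : ℝ) * (M0 m k l' l).q * (pz k (sL m k l) 2 ^ zf m k (sL m k l) 2 : ℕ)) *
          ρ2 ^ (m2 + 1))) := by
  classical
  have hP : (SSp m k l' l).Ok (Mk m k) := SSp_ok hm h hr hQk (by rw [← FF_low h]; exact hAA)
  have hL : LL (QQ m k (sL m k l)) 0 = 1 := by simp [LL]
  have hF2 : (SSp m k l' l).F2 = FF m k l 1 := by
    change FF m k l 1 * LL (QQ m k (sL m k l)) 0 = _
    rw [hL, mul_one]
  have hQ : (SSp m k l' l).Q = QQ m k (sL m k l) 0 := rfl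
  have hN : (SSp m k l' l).M.Ne' = Jn m k (sL m k l) (ef m k l' 0) := rfl
  have hN0 : (SSp m k l' l).M.Ne = FF m k l 0 := rfl
  set K1 : Finset Key := K ∪ (XJ m k l ×ˢ (SSp m k l' l).Y).image
    (fun q => (SSp m k l' l).key2 q.1 2 q.2) with hK1
  have hKK : K ⊆ K1 := subset_union_left
  have hdep : Pool.Agent.Helper22.SL.DepOn K (fun w => ∃ s, 2 * ((M0 m k l' l).C *
      ∏ f, (2 * (pz k (sL m k l) f - 1))) * (m1 + 1) * m2 <
      (((XJ m k l ×ˢ XJ m k l') ×ˢ Ys m k l 0).filter (fun z =>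
        c0 m k l w z.1.1 + cs m k l 0 w (okey m k l 0 z.1.1) z.2 + c0 m k l' w z.1.2 = s)).card) := by
    intro w w' hw
    have hfil : ∀ s, ((XJ m k l ×ˢ XJ m k l') ×ˢ Ys m k l 0).filter (fun z =>
        c0 m k l w z.1.1 + cs m k l 0 w (okey m k l 0 z.1.1) z.2 + c0 m k l' w z.1.2 = s) =
      ((XJ m k l ×ˢ XJ m k l') ×ˢ Ys m k l 0).filter (fun z =>
        c0 m k l w' z.1.1 + cs m k l 0 w' (okey m k l 0 z.1.1) z.2 + c0 m k l' w' z.1.2 = s) := by
      intro s
      refine filter_congr (fun z hz' => ?_)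
      rw [mem_product, mem_product] at hz'
      obtain ⟨⟨a1, a2⟩, a3⟩ := hz'
      rw [c0_congr_v2 (fun i => hw _ (hK _ a1 i)), c0_congr_v2 (fun i => hw _ (hK' _ a2 i)),
        cs_congr_v2 (fun f => hw _ (hK2 _ a1 _ a3 f))]
    simp only [hfil]
  refine (Pool.Agent.Helper22.SL.PrG_dep_iff (fun q => Mk_pos m k q) hKK hdep).1 ?_
  have hmain := mult_split_fin hP (M0_st h) (fun q => Mk_pos m k q) (K := K1)
    (fun x hx => hKK (hK x hx _)) (fun x hx => hKK <| by
      change x ∈ (XJ m k l').image lowJ at hx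
      rw [mem_image] at hx
      obtain ⟨z, hzz, rfl⟩ := hx
      change Key.J l' (Sum.inl (fam (era (mL m k l) + 2)))
        (maskJ (preJ m k l' (Sum.inl (fam (era (mL m k l) + 2)))) (lowJ z)) ∈ K
      rw [maskJ_low]
      exact hK' z hzz _)
    (fun x hx y hy => mem_union_right _ (mem_image.2 ⟨(x, y), mem_product.2 ⟨hx, hy⟩, rfl⟩))
    hρ1 hρ2
    (by rw [hF2, hQ, hN]; exact h1) (by rw [hF2, hN]; exact h2) m1 m2
  rw [hF2, hQ, hN, hN0, ← FF_low h] at hmain
  refine PrG_mono ?_ le_rfl hmain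
  rintro r _ ⟨s, hs⟩
  refine ⟨s, lt_of_lt_of_le hs ?_⟩
  refine Finset.card_le_card_of_injOn (fun z => lab z.1.1 z.1.2 z.2) ?_ ?_
  · intro z hzz
    rw [mem_coe, mem_filter, mem_product, mem_product] at hzz
    rw [mem_coe, SP.mem_H]
    obtain ⟨⟨⟨a1, a2⟩, a3⟩, a4⟩ := hzz
    refine ⟨(c0 m k l (ext K1 r) z.1.1, cs m k l 0 (ext K1 r) (okey m k l 0 z.1.1) z.2,
      c0 m k l' (ext K1 r) z.1.2), ?_⟩
    rw [← a4]
    exact gd_of hm h hr hz (ext K1 r) a1 a2 a3
  · intro z _ z' _ he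
    have e1 : z.1.1 = z'.1.1 := congrArg (fun q : Lb JF => q.1.1) he
    have e2 : lowJ z.1.2 = lowJ z'.1.2 := congrArg (fun q : Lb JF => q.1.2) he
    have e3 : z.2 = z'.2 := congrArg (fun q : Lb JF => q.2.1) he
    have e4 : nbv z.1.2 = nbv z'.1.2 := congrArg (fun q : Lb JF => q.2.2) he
    exact Prod.ext (Prod.ext e1 (lowJ_nbv_inj e2 e4)) e3

end Pool.Agent.Helper98.T5g
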